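import Mathlib

set_option autoImplicit false

namespace Pool.Agent.H26myc

open SimpleGraph

variable {V : Type*}

/-- The Mycielskian of `G`: the vertices are `some (inl v)` (the vertices of `G`), `some (inr v)`
(the shadows `u_v`) and `none` (the vertex `w`). -/
def mycielskian (G : SimpleGraph V) : SimpleGraph (Option (V ⊕ V)) where
  Adj
    | some (Sum.inl x), some (Sum.inl y) => G.Adj x y
    | some (Sum.inl x), some (Sum.inr y) => G.Adj x y
    | some (Sum.inr x), some (Sum.inl y) => G.Adj x y
    | some (Sum.inr _), none => True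
    | none, some (Sum.inr _) => True
    | _, _ => False
  symm := ⟨by
    rintro (_ | x | x) (_ | y | y) h <;> first | exact SimpleGraph.Adj.symm (G := G) h | exact h⟩
  loopless := ⟨by
    rintro (_ | x | x) h
    · exact h
    · exact G.loopless.irrefl x h
    · exact h⟩

/-- An edge colouring `c` is distinguishing if the only automorphism of `G` that maps every edge to
an edge of the same colour (so that every colour class is mapped onto itself) is the identity. -/
def IsDistinguishing {G : SimpleGraph V} {d : ℕ} (c : G.edgeSet → Fin d) : Prop :=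
  ∀ φ : G ≃g G, (∀ e : G.edgeSet, c (φ.mapEdgeSet e) = c e) → φ = SimpleGraph.Iso.refl

/-- The distinguishing index. -/
noncomputable def distIndex (G : SimpleGraph V) : ℕ :=
  sInf {d : ℕ | ∃ c : G.edgeSet → Fin d, IsDistinguishing c}

section twins

variable {G : SimpleGraph V} {d : ℕ} {c : G.edgeSet → Fin d}

/-- Twins with equally coloured edges contradict the distinguishing property. -/
theorem no_twins (hc : IsDistinguishing c) {x y : V} (hN : ∀ z, G.Adj x z ↔ G.Adj y z)
    (hcol : ∀ z (h1 : G.Adj x z) (h2 : G.Adj y z), c ⟨s(x, z), h1⟩ = c ⟨s(y, z), h2⟩) :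
    x = y := by
  classical
  by_contra hne
  have hxy : ¬ G.Adj x y := by
    intro h
    exact G.loopless.irrefl y ((hN y).1 h)
  have hyx : ¬ G.Adj y x := fun h => hxy h.symm
  have key : ∀ z, G.Adj x z → z ≠ x ∧ z ≠ y := by
    intro z h
    refine ⟨?_, ?_⟩
    · rintro rfl; exact G.loopless.irrefl _ h
    · rintro rfl; exact hxy h
  have key2 : ∀ z, G.Adj y z → z ≠ x ∧ z ≠ y := fun z h => key z ((hN z).2 h)
  have hmap : ∀ a b, G.Adj a b → G.Adj (Equiv.swap x y a) (Equiv.swap x y b) := by
    intro a b h
    by_cases ha : a = x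
    · subst ha
      rw [Equiv.swap_apply_left, Equiv.swap_apply_of_ne_of_ne (key b h).1 (key b h).2]
      exact (hN b).1 h
    by_cases ha' : a = y
    · subst ha'
      rw [Equiv.swap_apply_right, Equiv.swap_apply_of_ne_of_ne (key2 b h).1 (key2 b h).2]
      exact (hN b).2 h
    rw [Equiv.swap_apply_of_ne_of_ne ha ha']
    by_cases hb : b = x
    · subst hb
      rw [Equiv.swap_apply_left]
      exact ((hN a).1 h.symm).symm
    by_cases hb' : b = y
    · subst hb'
      rw [Equiv.swap_apply_right]
      exact ((hN a).2 h.symm).symm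
    rwa [Equiv.swap_apply_of_ne_of_ne hb hb']
  let φ : G ≃g G :=
    { toEquiv := Equiv.swap x y
      map_rel_iff' := by
        intro a b
        constructor
        · intro h
          have := hmap _ _ h
          simpa using this
        · exact hmap a b }
  have h1 := hc φ (by
    rintro ⟨e, he⟩
    induction e using Sym2.ind with
    | _ a b =>
      have hab : G.Adj a b := he
      have h3 : φ.mapEdgeSet ⟨s(a, b), he⟩ =
          ⟨s(Equiv.swap x y a, Equiv.swap x y b), hmap a b hab⟩ := rfl
      rw [h3]
      by_cases ha : a = x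
      · subst ha
        have hb := key b hab
        have e1 : Equiv.swap a y b = b := Equiv.swap_apply_of_ne_of_ne hb.1 hb.2
        have e2 : Equiv.swap a y a = y := Equiv.swap_apply_left _ _
        simp only [e1, e2]
        exact (hcol b hab ((hN b).1 hab)).symm
      by_cases ha' : a = y
      · subst ha'
        have hb := key2 b hab
        have e1 : Equiv.swap x a b = b := Equiv.swap_apply_of_ne_of_ne hb.1 hb.2
        have e2 : Equiv.swap x a a = x := Equiv.swap_apply_right _ _
        simp only [e1, e2]
        exact hcol b ((hN b).2 hab) hab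
      have e0 : Equiv.swap x y a = a := Equiv.swap_apply_of_ne_of_ne ha ha'
      by_cases hb : b = x
      · subst hb
        have e2 : Equiv.swap b y b = y := Equiv.swap_apply_left _ _
        simp only [e0, e2]
        have h5 := hcol a hab.symm ((hN a).1 hab.symm)
        have e5 : (⟨s(a, y), ((hN a).1 hab.symm).symm⟩ : G.edgeSet) =
            ⟨s(y, a), (hN a).1 hab.symm⟩ := Subtype.ext Sym2.eq_swap
        have e6 : (⟨s(a, b), hab⟩ : G.edgeSet) = ⟨s(b, a), hab.symm⟩ := Subtype.ext Sym2.eq_swap
        rw [e5, e6, h5]
      by_cases hb' : b = y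
      · subst hb'
        have e2 : Equiv.swap x b b = x := Equiv.swap_apply_right _ _
        simp only [e0, e2]
        have h5 := hcol a ((hN a).2 hab.symm) hab.symm
        have e5 : (⟨s(a, x), ((hN a).2 hab.symm).symm⟩ : G.edgeSet) =
            ⟨s(x, a), (hN a).2 hab.symm⟩ := Subtype.ext Sym2.eq_swap
        have e6 : (⟨s(a, b), hab⟩ : G.edgeSet) = ⟨s(b, a), hab.symm⟩ := Subtype.ext Sym2.eq_swap
        rw [e5, e6, h5]
      have e1 : Equiv.swap x y b = b := Equiv.swap_apply_of_ne_of_ne hb hb'
      simp only [e0, e1])
  have h2 : φ x = x := by rw [h1]; rfl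
  have h3 : φ x = y := Equiv.swap_apply_left x y
  exact hne (h2.symm.trans h3)

end twins

end Pool.Agent.H26myc
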