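import Pool.Agent.H26myc.Basic

set_option autoImplicit false
set_option linter.unusedSectionVars false

namespace Pool.Agent.H26myc

open SimpleGraph

variable {V : Type*} {G : SimpleGraph V}

/-! ### Neighbourhoods -/

theorem nb_image (φ : mycielskian G ≃g mycielskian G) (a : Option (V ⊕ V)) :
    φ '' (mycielskian G).neighborSet a = (mycielskian G).neighborSet (φ a) := by
  ext b
  simp only [Set.mem_image, mem_neighborSet]
  constructor
  · rintro ⟨x, hx, rfl⟩
    exact φ.map_adj_iff.2 hx
  · intro h
    refine ⟨φ.symm b, ?_, φ.apply_symm_apply b⟩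
    rw [← φ.map_adj_iff, φ.apply_symm_apply]
    exact h

theorem nb_ncard (φ : mycielskian G ≃g mycielskian G) (a : Option (V ⊕ V)) :
    ((mycielskian G).neighborSet (φ a)).ncard = ((mycielskian G).neighborSet a).ncard := by
  rw [← nb_image]
  exact Set.ncard_image_of_injective _ φ.injective

theorem inter_ncard (φ : mycielskian G ≃g mycielskian G) (a b : Option (V ⊕ V)) :
    ((mycielskian G).neighborSet (φ a) ∩ (mycielskian G).neighborSet (φ b)).ncard =
      ((mycielskian G).neighborSet a ∩ (mycielskian G).neighborSet b).ncard := by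
  rw [← nb_image, ← nb_image, ← Set.image_inter φ.injective]
  exact Set.ncard_image_of_injective _ φ.injective

theorem inj_l : Function.Injective (fun v : V => (some (Sum.inl v) : Option (V ⊕ V))) :=
  fun _ _ h => Sum.inl_injective (Option.some_injective _ h)

theorem inj_r : Function.Injective (fun v : V => (some (Sum.inr v) : Option (V ⊕ V))) :=
  fun _ _ h => Sum.inr_injective (Option.some_injective _ h)

theorem nb_none : (mycielskian G).neighborSet none = Set.range fun v : V => some (Sum.inr v) := by
  ext (_ | x | x)
  · simp [mycielskian]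
  · simp [mycielskian]
  · simp [mycielskian]

theorem nb_inl (k : V) : (mycielskian G).neighborSet (some (Sum.inl k)) =
    (fun v : V => some (Sum.inl v)) '' G.neighborSet k ∪
      (fun v : V => some (Sum.inr v)) '' G.neighborSet k := by
  ext (_ | x | x)
  · simp [mycielskian]
  · simp [mycielskian]
  · simp [mycielskian]

theorem nb_inr (k : V) : (mycielskian G).neighborSet (some (Sum.inr k)) =
    insert none ((fun v : V => some (Sum.inl v)) '' G.neighborSet k) := by
  ext (_ | x | x)
  · simp [mycielskian]
  · simp [mycielskian]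
  · simp [mycielskian]

variable [Finite V]

theorem card_none : ((mycielskian G).neighborSet none).ncard = Nat.card V := by
  rw [nb_none, ← Set.image_univ, Set.ncard_image_of_injective _ inj_r, Set.ncard_univ]

theorem card_inl (k : V) : ((mycielskian G).neighborSet (some (Sum.inl k))).ncard =
    2 * (G.neighborSet k).ncard := by
  rw [nb_inl, Set.ncard_union_eq]
  · rw [Set.ncard_image_of_injective _ inj_r, Set.ncard_image_of_injective _ inj_l]; ring
  · rw [Set.disjoint_left]
    rintro _ ⟨x, _, rfl⟩ ⟨y, _, h⟩
    simp at h

theorem card_inr (k : V) : ((mycielskian G).neighborSet (some (Sum.inr k))).ncard =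
    (G.neighborSet k).ncard + 1 := by
  rw [nb_inr, Set.ncard_insert_of_notMem, Set.ncard_image_of_injective _ inj_l]
  rintro ⟨x, _, h⟩
  simp at h

theorem inter_inl_none (k : V) : ((mycielskian G).neighborSet (some (Sum.inl k)) ∩
    (mycielskian G).neighborSet none).ncard = (G.neighborSet k).ncard := by
  rw [nb_inl, nb_none]
  have : (((fun v : V => (some (Sum.inl v) : Option (V ⊕ V))) '' G.neighborSet k ∪
      (fun v : V => some (Sum.inr v)) '' G.neighborSet k) ∩
      Set.range fun v : V => some (Sum.inr v)) =
      (fun v : V => some (Sum.inr v)) '' G.neighborSet k := by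
    ext (_ | x | x)
    · simp
    · simp
    · simp
  rw [this, Set.ncard_image_of_injective _ inj_r]

theorem inter_inr_inl (k : V) : ((mycielskian G).neighborSet (some (Sum.inr k)) ∩
    (mycielskian G).neighborSet (some (Sum.inl k))).ncard = (G.neighborSet k).ncard := by
  rw [nb_inl, nb_inr]
  have : (insert none ((fun v : V => (some (Sum.inl v) : Option (V ⊕ V))) '' G.neighborSet k) ∩
      ((fun v : V => (some (Sum.inl v) : Option (V ⊕ V))) '' G.neighborSet k ∪
      (fun v : V => some (Sum.inr v)) '' G.neighborSet k)) =
      (fun v : V => some (Sum.inl v)) '' G.neighborSet k := by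
    ext (_ | x | x)
    · simp
    · simp
    · simp
  rw [this, Set.ncard_image_of_injective _ inj_l]

/-- An automorphism of the Mycielskian does not map `w` to a vertex of `G`. -/
theorem not_inl (hV : 3 ≤ Nat.card V) (φ : mycielskian G ≃g mycielskian G) (i : V) :
    φ none ≠ some (Sum.inl i) := by
  intro h
  obtain ⟨k, hk⟩ : ∃ k, φ (some (Sum.inl k)) = some (Sum.inr i) := by
    rcases hx : φ.symm (some (Sum.inr i)) with _ | k | k
    · exfalso
      have h1 : φ none = some (Sum.inr i) := by rw [← hx, φ.apply_symm_apply]
      rw [h] at h1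
      simp at h1
    · exact ⟨k, by rw [← hx, φ.apply_symm_apply]⟩
    · exfalso
      have h1 : φ (some (Sum.inr k)) = some (Sum.inr i) := by rw [← hx, φ.apply_symm_apply]
      have h2 : (mycielskian G).Adj (some (Sum.inr k)) none := trivial
      rw [← φ.map_adj_iff, h1, h] at h2
      exact G.loopless.irrefl i h2
  have e1 := nb_ncard φ (some (Sum.inl k))
  rw [hk, card_inr, card_inl] at e1
  have e2 := inter_ncard φ (some (Sum.inl k)) none
  rw [hk, h, inter_inr_inl, inter_inl_none] at e2
  have e3 := nb_ncard φ none
  rw [h, card_none, card_inl] at e3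
  omega

/-! ### The colouring -/

variable {d : ℕ}

open Classical in
/-- The colour of a pair of vertices (a fixed colour for non-edges). -/
noncomputable def colf (c₀ : Fin d) (c : G.edgeSet → Fin d) (x y : V) : Fin d :=
  if h : G.Adj x y then c ⟨s(x, y), h⟩ else c₀

omit [Finite V] in
theorem colf_adj (c₀ : Fin d) (c : G.edgeSet → Fin d) {x y : V} (h : G.Adj x y) :
    colf c₀ c x y = c ⟨s(x, y), h⟩ := dif_pos h

omit [Finite V] in
theorem colf_symm (c₀ : Fin d) (c : G.edgeSet → Fin d) (x y : V) :
    colf c₀ c x y = colf c₀ c y x := by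
  by_cases h : G.Adj x y
  · rw [colf_adj c₀ c h, colf_adj c₀ c h.symm]
    congr 1
    exact Subtype.ext Sym2.eq_swap
  · have h' : ¬ G.Adj y x := fun h2 => h h2.symm
    unfold colf
    rw [dif_neg h, dif_neg h']

/-- The colours of the pairs of vertices of the Mycielskian. -/
noncomputable def gcol (c₀ : Fin d) (c : G.edgeSet → Fin d) :
    Option (V ⊕ V) → Option (V ⊕ V) → Fin d
  | some (Sum.inl x), some (Sum.inl y) => colf c₀ c x y
  | some (Sum.inl x), some (Sum.inr y) => colf c₀ c x y
  | some (Sum.inr x), some (Sum.inl y) => colf c₀ c x y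
  | _, _ => c₀

omit [Finite V] in
theorem gcol_symm (c₀ : Fin d) (c : G.edgeSet → Fin d) (a b : Option (V ⊕ V)) :
    gcol c₀ c a b = gcol c₀ c b a := by
  rcases a with _ | x | x <;> rcases b with _ | y | y <;>
    first | rfl | exact colf_symm c₀ c x y

/-- The edge colouring of the Mycielskian. -/
noncomputable def mcol (c₀ : Fin d) (c : G.edgeSet → Fin d) :
    (mycielskian G).edgeSet → Fin d :=
  fun e => Sym2.lift ⟨gcol c₀ c, gcol_symm c₀ c⟩ e.1

/-- **Main construction.** -/
theorem mcol_distinguishing (hV : 3 ≤ Nat.card V) {c : G.edgeSet → Fin d}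
    (hc : IsDistinguishing c) (c₀ : Fin d) : IsDistinguishing (mcol c₀ c) := by
  intro φ hφ
  have hcol : ∀ a b, (mycielskian G).Adj a b → gcol c₀ c (φ a) (φ b) = gcol c₀ c a b := by
    intro a b h
    exact hφ ⟨s(a, b), h⟩
  have hadj : ∀ a b, (mycielskian G).Adj (φ a) (φ b) ↔ (mycielskian G).Adj a b :=
    fun a b => φ.map_adj_iff
  -- `w` is fixed
  have hw : φ none = none := by
    rcases hx : φ none with _ | i | i
    · rfl
    · exact absurd hx (not_inl hV φ i)
    · exfalso
      have hdeg := nb_ncard φ none
      rw [hx, card_none, card_inr] at hdeg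
      have himg := nb_image φ none
      rw [hx] at himg
      -- every vertex other than `i` is adjacent to `i`
      have huniv : ∀ y, y ≠ i → G.Adj i y := by
        by_contra hcon
        push Not at hcon
        obtain ⟨y, hy, hiy⟩ := hcon
        have h1 : (G.neighborSet i) ⊆ ({i, y} : Set V)ᶜ := by
          intro z hz
          simp only [Set.mem_compl_iff, Set.mem_insert_iff, Set.mem_singleton_iff, not_or]
          refine ⟨?_, ?_⟩
          · rintro rfl; exact G.loopless.irrefl _ hz
          · rintro rfl; exact hiy hz
        have h2 := Set.ncard_le_ncard h1 (Set.toFinite _)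
        have h3 := Set.ncard_add_ncard_compl ({i, y} : Set V)
        rw [Set.ncard_pair hy.symm] at h3
        omega
      -- all neighbours of `u_i` are images of shadows
      have hpre : ∀ y, y ≠ i → ∃ x, φ (some (Sum.inr x)) = some (Sum.inl y) := by
        intro y hy
        have h1 : (some (Sum.inl y) : Option (V ⊕ V)) ∈
            (mycielskian G).neighborSet (some (Sum.inr i)) := huniv y hy
        rw [← himg, nb_none] at h1
        obtain ⟨_, ⟨x, rfl⟩, hx2⟩ := h1
        exact ⟨x, hx2⟩
      have hind : ∀ y z, y ≠ i → z ≠ i → ¬ G.Adj y z := by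
        intro y z hy hz hyz
        obtain ⟨a, ha⟩ := hpre y hy
        obtain ⟨b, hb⟩ := hpre z hz
        have h1 : (mycielskian G).Adj (some (Sum.inl y)) (some (Sum.inl z)) := hyz
        rw [← ha, ← hb, hadj] at h1
        exact h1
      have hc1 : ∀ y, y ≠ i → colf c₀ c i y = c₀ := by
        intro y hy
        obtain ⟨a, ha⟩ := hpre y hy
        have h1 := hcol none (some (Sum.inr a)) trivial
        rw [hx, ha] at h1
        exact h1
      -- two leaves
      obtain ⟨y, z, hyi, hzi, hyz⟩ : ∃ y z : V, y ≠ i ∧ z ≠ i ∧ y ≠ z := by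
        have h3 := Set.ncard_add_ncard_compl ({i} : Set V)
        rw [Set.ncard_singleton] at h3
        have h4 : 1 < (({i} : Set V)ᶜ).ncard := by omega
        obtain ⟨y, hy, z, hz, hne⟩ := (Set.one_lt_ncard (Set.toFinite _)).1 h4
        exact ⟨y, z, hy, hz, hne⟩
      have hnb : ∀ y, y ≠ i → ∀ x, G.Adj y x ↔ x = i := by
        intro y hy x
        constructor
        · intro h
          by_contra hxi
          exact hind y x hy hxi h
        · rintro rfl
          exact (huniv y hy).symm
      apply hyz
      refine no_twins hc (fun x => by rw [hnb y hyi, hnb z hzi]) ?_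
      intro x h1 h2
      have hxi : x = i := (hnb y hyi x).1 h1
      subst hxi
      rw [← colf_adj c₀ c h1, ← colf_adj c₀ c h2, colf_symm, hc1 y hyi, colf_symm, hc1 z hzi]
  -- the shadows and the original vertices are preserved
  have hshadow : ∀ x : V, ∃ y : V, φ (some (Sum.inr x)) = some (Sum.inr y) := by
    intro x
    have h1 : (mycielskian G).Adj (φ none) (φ (some (Sum.inr x))) := (hadj _ _).2 trivial
    rw [hw] at h1
    rcases hx : φ (some (Sum.inr x)) with _ | y | y
    · rw [hx] at h1; exact h1.elim
    · rw [hx] at h1; exact h1.elim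
    · exact ⟨y, rfl⟩
  have horig : ∀ ψ : mycielskian G ≃g mycielskian G, ψ none = none → ∀ x : V, ∃ y : V,
      ψ (some (Sum.inl x)) = some (Sum.inl y) := by
    intro ψ hψ x
    rcases hx : ψ (some (Sum.inl x)) with _ | y | y
    · exfalso
      rw [← hψ] at hx
      have := ψ.injective hx
      simp at this
    · exact ⟨y, rfl⟩
    · exfalso
      have h1 : (mycielskian G).Adj (ψ (some (Sum.inl x))) (ψ none) := by
        rw [hx, hψ]; trivial
      rw [ψ.map_adj_iff] at h1
      exact h1
  have hw' : φ.symm none = none := by
    rw [← hw, φ.symm_apply_apply, hw]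
  choose f hf using horig φ hw
  choose g hg using horig φ.symm hw'
  have hfg : ∀ x, f (g x) = x := by
    intro x
    have h1 := hf (g x)
    rw [← hg, φ.apply_symm_apply] at h1
    exact (inj_l h1).symm
  have hgf : ∀ x, g (f x) = x := by
    intro x
    have h1 := hg (f x)
    rw [← hf, φ.symm_apply_apply] at h1
    exact (inj_l h1).symm
  let ψ : G ≃g G :=
    { toFun := f
      invFun := g
      left_inv := hgf
      right_inv := hfg
      map_rel_iff' := by
        intro a b
        have h1 := hadj (some (Sum.inl a)) (some (Sum.inl b))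
        rw [hf, hf] at h1
        exact h1 }
  have hψ : ψ = SimpleGraph.Iso.refl := by
    apply hc
    rintro ⟨e, he⟩
    induction e using Sym2.ind with
    | _ a b =>
      have hab : G.Adj a b := he
      have h1 := hcol (some (Sum.inl a)) (some (Sum.inl b)) hab
      rw [hf, hf] at h1
      have h2 : G.Adj (f a) (f b) := ψ.map_adj_iff.2 hab
      have h3 : colf c₀ c (f a) (f b) = colf c₀ c a b := h1
      rw [colf_adj c₀ c h2, colf_adj c₀ c hab] at h3
      exact h3
  have hfid : ∀ x, f x = x := by
    intro x
    have : ψ x = x := by rw [hψ]; rfl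
    exact this
  have hl : ∀ x, φ (some (Sum.inl x)) = some (Sum.inl x) := by
    intro x; rw [hf, hfid]
  have hr : ∀ x, φ (some (Sum.inr x)) = some (Sum.inr x) := by
    intro x
    obtain ⟨y, hy⟩ := hshadow x
    have hadj2 : ∀ z, G.Adj x z ↔ G.Adj y z := by
      intro z
      have h1 := hadj (some (Sum.inr x)) (some (Sum.inl z))
      rw [hy, hl] at h1
      exact h1.symm
    have hxy : x = y := by
      refine no_twins hc hadj2 ?_
      intro z h1 h2
      have h3 := hcol (some (Sum.inr x)) (some (Sum.inl z)) h1
      rw [hy, hl] at h3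
      have h4 : colf c₀ c y z = colf c₀ c x z := h3
      rw [colf_adj c₀ c h1, colf_adj c₀ c h2] at h4
      exact h4.symm
    rw [hy, hxy]
  ext a
  rcases a with _ | x | x
  · rw [hw]; rfl
  · rw [hl]; rfl
  · rw [hr]; rfl

/-- A connected graph with at least three vertices has a distinguishing edge colouring. -/
theorem exists_distinguishing [Fintype V] (hV : 3 ≤ Nat.card V) (hG : G.Connected) :
    ∃ (d : ℕ) (c : G.edgeSet → Fin d), IsDistinguishing c := by
  classical
  refine ⟨Fintype.card G.edgeSet, Fintype.equivFin _, fun φ hφ => ?_⟩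
  have hfix : ∀ a b, G.Adj a b → s(φ a, φ b) = s(a, b) := by
    intro a b h
    have h1 := (Fintype.equivFin _).injective (hφ ⟨s(a, b), h⟩)
    exact congrArg Subtype.val h1
  have hnbr : ∀ a, ∃ b, G.Adj a b := by
    intro a
    haveI : Nontrivial V := by
      rw [← Finite.one_lt_card_iff_nontrivial]; omega
    exact hG.preconnected.exists_adj_of_nontrivial a
  have htwo : ∀ a b b', G.Adj a b → G.Adj a b' → b ≠ b' → φ a = a := by
    intro a b b' h1 h2 hne
    have e1 := hfix a b h1
    have e2 := hfix a b' h2
    rw [Sym2.eq_iff] at e1 e2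
    rcases e1 with e1 | e1
    · exact e1.1
    · rcases e2 with e2 | e2
      · exact e2.1
      · exact absurd (e1.1.symm.trans e2.1) hne
  have hall : ∀ a, φ a = a := by
    intro a
    obtain ⟨b, hb⟩ := hnbr a
    by_cases h2 : ∃ b', G.Adj a b' ∧ b' ≠ b
    · obtain ⟨b', hb', hne⟩ := h2
      exact htwo a b b' hb hb' hne.symm
    · push Not at h2
      -- `b` has a neighbour different from `a`
      have h3 : ∃ b', G.Adj b b' ∧ b' ≠ a := by
        by_contra hcon
        push Not at hcon
        -- then `{a, b}` is a component
        have h4 : ∀ x, G.Reachable a x → x = a ∨ x = b := by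
          intro x hx
          obtain ⟨p⟩ := hx
          have : ∀ (u v : V) (p : G.Walk u v), (u = a ∨ u = b) → (v = a ∨ v = b) := by
            intro u v p
            induction p with
            | nil => exact id
            | cons h p ih =>
              intro hu
              apply ih
              rcases hu with rfl | rfl
              · exact Or.inr (h2 _ h)
              · exact Or.inl (hcon _ h)
          exact this a x p (Or.inl rfl)
        have h5 : Nat.card V ≤ 2 := by
          have h6 : (Set.univ : Set V) ⊆ {a, b} := fun x _ => h4 x (hG.preconnected a x)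
          have h7 := Set.ncard_le_ncard h6 (Set.toFinite _)
          rw [Set.ncard_univ, Set.ncard_pair hb.ne] at h7
          exact h7
        omega
      obtain ⟨b', hb', hne⟩ := h3
      have h4 := htwo b a b' hb.symm hb' hne.symm
      have h5 := hfix a b hb
      rw [h4, Sym2.eq_iff] at h5
      rcases h5 with h5 | h5
      · exact h5.1
      · exact absurd h5.2 hb.ne.symm
  ext a
  rw [hall]; rfl

end Pool.Agent.H26myc
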